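import Pool.Agent.W192.CM.Parts2
import Pool.Agent.W588.CM.Mainp

/-!
# Project CM, second theorem, part MAINP with a general weight function
(adapted from `Pool.Agent.W588.CM.Mainp`)
-/

set_option autoImplicit false

namespace Pool.Agent.W856.CM.Mainp

open Finset
open Pool.Agent.W192.CM Pool.Agent.W588.CM
open Pool.Agent.W192.CY (VW)

section main

variable {R : Subring ℂ} {ω : ℂ}

open scoped Classical in
/-- the coefficients -/
noncomputable def aa (V : ℝ → ℝ) (m : R → ℝ) (X : ℝ) (S : Finset R) (γ : R) : ℝ :=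
  ∑ β ∈ S.filter (fun β => β ≠ 0 ∧ β ∣ γ), m β * V (nq γ / (nq β * X))

/-- the weights -/
noncomputable def hh (V : ℝ → ℝ) (m : R → ℝ) (g : R → ℂ) (X : ℝ) (S : Finset R) (γ : R) : ℂ :=
  g γ / (nq γ : ℂ) * (aa V m X S γ : ℂ)

theorem aa_unit (V : ℝ → ℝ) (h1 : C_BASIC) (h3 : C_DIVR) (hR : CMRing R ω) {m : R → ℝ} (hm : Mu R m)
    {B X : ℝ} (hB : 1 ≤ B) {S : Finset R} (hS : ∀ β, β ∈ S ↔ nq β ≤ B) {γ : R}
    (hγ : IsUnit γ) : aa V m X S γ = nu R * V (1 / X) := by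
  classical
  have hγ0 : γ ≠ 0 := hγ.ne_zero
  have hγ1 : nq γ = 1 := ((h1 R ω hR).2.1 γ).1 hγ
  obtain ⟨C, _, hd⟩ := h3 R ω hR 1 one_pos
  have hfin := (hd γ hγ0).1
  unfold aa
  rw [filt_eq h1 hR hS hγ0 (by rw [hγ1]; exact hB) hfin]
  have h4 : ∀ β ∈ hfin.toFinset, m β * V (nq γ / (nq β * X)) =
      m β * V (1 / X) := by
    intro β hβ
    rw [Set.Finite.mem_toFinset, Set.mem_ofPred_eq] at hβ
    obtain ⟨_, h5, h6⟩ := dvd_nq h1 hR hγ0 hβ
    have h7 : nq β = 1 := le_antisymm (h6.trans hγ1.le) h5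
    rw [h7, hγ1, one_mul]
  rw [sum_congr rfl h4, ← sum_mul, sum_m hm hγ0 hfin, if_pos hγ]

theorem aa_small {V : ℝ → ℝ} {CV : ℝ} (hV : VW V CV) (h1 : C_BASIC) (hR : CMRing R ω)
    {m : R → ℝ} (hm : Mu R m)
    {B X : ℝ} (hX : 0 < X) {S : Finset R} (hS : ∀ β, β ∈ S ↔ nq β ≤ B) {γ : R}
    (hγ : γ ≠ 0) (hγu : ¬ IsUnit γ) (hγB : nq γ ≤ B) (hfin : {β : R | β ∣ γ}.Finite) :
    |aa V m X S γ| ≤ (Set.ncard {β : R | β ∣ γ} : ℝ) * (CV * (nq γ / X)) := by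
  classical
  unfold aa
  rw [filt_eq h1 hR hS hγ hγB hfin]
  have h4 : ∑ β ∈ hfin.toFinset, m β * V (nq γ / (nq β * X)) =
      ∑ β ∈ hfin.toFinset, m β * (V (nq γ / (nq β * X)) - 1) := by
    simp only [mul_sub, mul_one, sum_sub_distrib]
    rw [sum_m hm hγ hfin, if_neg hγu, sub_zero]
  rw [h4, Set.ncard_eq_toFinset_card _ hfin, ← nsmul_eq_mul]
  refine (abs_sum_le_sum_abs _ _).trans (sum_le_card_nsmul _ _ _ fun β hβ => ?_)
  rw [Set.Finite.mem_toFinset, Set.mem_ofPred_eq] at hβ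
  obtain ⟨_, h5, _⟩ := dvd_nq h1 hR hγ hβ
  have h6 : 0 ≤ nq γ / (nq β * X) := div_nonneg (nq_nonneg _) (mul_nonneg (nq_nonneg _) hX.le)
  have h7 : nq γ / (nq β * X) ≤ nq γ / X :=
    div_le_div_of_nonneg_left (nq_nonneg _) hX (le_mul_of_one_le_left hX.le h5)
  rw [abs_mul]
  have h8 : |V (nq γ / (nq β * X)) - 1| ≤ CV * (nq γ / X) := by
    rw [abs_sub_comm]
    exact (hV.one _ h6).trans (mul_le_mul_of_nonneg_left h7 hV.pos.le)
  calc |m β| * |V (nq γ / (nq β * X)) - 1| ≤ 1 * (CV * (nq γ / X)) :=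
        mul_le_mul (hm.le β) h8 (abs_nonneg _) zero_le_one
    _ = _ := one_mul _

theorem aa_large {V : ℝ → ℝ} {CV : ℝ} (hV : VW V CV) (h1 : C_BASIC) (hR : CMRing R ω)
    {m : R → ℝ} (hm : Mu R m)
    {B X : ℝ} (hX : 0 < X) {S : Finset R} (hS : ∀ β, β ∈ S ↔ nq β ≤ B) {γ : R}
    (hγ : γ ≠ 0) (hfin : {β : R | β ∣ γ}.Finite) :
    |aa V m X S γ| ≤ (Set.ncard {β : R | β ∣ γ} : ℝ) *
      (CV * Real.exp (-(nq γ / (B * (2 * X))))) := by
  classical
  unfold aa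
  refine (abs_sum_le_sum_abs _ _).trans ?_
  have h4 : ∀ β ∈ S.filter (fun β => β ≠ 0 ∧ β ∣ γ),
      |m β * V (nq γ / (nq β * X))| ≤ CV * Real.exp (-(nq γ / (B * (2 * X)))) := by
    intro β hβ
    rw [mem_filter, hS] at hβ
    obtain ⟨_, h5, _⟩ := dvd_nq h1 hR hγ hβ.2.2
    rw [abs_mul]
    have h60 : 0 ≤ nq γ / (nq β * X) := div_nonneg (nq_nonneg _) (mul_nonneg (nq_nonneg _) hX.le)
    have h6 : |V (nq γ / (nq β * X))| ≤ CV * Real.exp (-(nq γ / (B * (2 * X)))) := by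
      refine (hV.dec _ h60).trans (mul_le_mul_of_nonneg_left ?_ hV.pos.le)
      apply Real.exp_le_exp.2
      apply neg_le_neg
      have h61 : nq γ / (nq β * X) / 2 = nq γ / (nq β * (2 * X)) := by
        rw [div_div]; congr 1; ring
      rw [h61]
      exact div_le_div_of_nonneg_left (nq_nonneg _) (by positivity)
        (mul_le_mul_of_nonneg_right hβ.1 (by positivity))
    calc |m β| * |V (nq γ / (nq β * X))| ≤ 1 * (CV * Real.exp (-(nq γ / (B * (2 * X))))) :=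
          mul_le_mul (hm.le β) h6 (abs_nonneg _) zero_le_one
      _ = _ := one_mul _
  refine (sum_le_card_nsmul _ _ _ h4).trans ?_
  rw [nsmul_eq_mul]
  exact mul_le_mul_of_nonneg_right (card_filt hfin) (mul_nonneg hV.pos.le (Real.exp_pos _).le)

/-- the product of the mollifier and the smoothed sum -/
theorem prod_hasSum {V : ℝ → ℝ} {CV : ℝ} (hV : VW V CV) (h1 : C_BASIC) (h2 : C_LAT) (hR : CMRing R ω) {m : R → ℝ} {g : R → ℂ}
    (hg : Gd R g) {X : ℝ} (hX : 0 < X) (S : Finset R) {κ : R} [Finite (Aq R κ)]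
    (χ : MulChar (Aq R κ) ℂ) :
    HasSum (fun γ : R => ev χ γ * hh V m g X S γ)
      ((∑ β ∈ S, ev χ β * ((m β : ℂ) * g β) / (nq β : ℂ)) *
        ∑' α : R, ev χ α * g α / (nq α : ℂ) * (V (nq α / X) : ℂ)) := by
  classical
  have hev : ∀ α β : R, ev χ (α * β) = ev χ α * ev χ β := fun α β => by
    unfold ev; rw [map_mul, map_mul]
  have hsm : Summable (fun α : R => ev χ α * g α / (nq α : ℂ) * (V (nq α / X) : ℂ)) := by
    refine Summable.of_norm_bounded ((summ_exp h1 h2 hR (show 0 < 2 * X by positivity)).mul_left CV)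
      fun α => ?_
    rw [norm_mul, Complex.norm_real, Real.norm_eq_abs]
    have hdv : |V (nq α / X)| ≤ CV * Real.exp (-(nq α / (2 * X))) := by
      have := hV.dec (nq α / X) (div_nonneg (nq_nonneg _) hX.le)
      have h61 : nq α / X / 2 = nq α / (2 * X) := by
        rw [div_div]; congr 1; ring
      rwa [h61] at this
    refine (mul_le_of_le_one_left (abs_nonneg _) ?_).trans hdv
    by_cases hα : α = 0
    · rw [hα, hg.zero]; simp
    · have h5 := one_le_nq h1 hR hα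
      rw [norm_div, norm_mul, Complex.norm_real, Real.norm_of_nonneg (nq_nonneg _),
        div_le_one (by linarith)]
      have h6 : ‖ev χ α‖ ≤ 1 := chi_le χ _
      have h7 := hg.le α
      rw [norm_coe] at h7
      have h8 : (nq α) ^ (1 / 2 : ℝ) ≤ nq α := by
        conv_rhs => rw [← Real.rpow_one (nq α)]
        exact Real.rpow_le_rpow_of_exponent_le h5 (by norm_num)
      calc ‖ev χ α‖ * ‖g α‖ ≤ 1 * nq α := mul_le_mul h6 (h7.trans h8) (norm_nonneg _) zero_le_one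
        _ = _ := one_mul _
  rw [sum_mul]
  have hterm : ∀ γ : R, ev χ γ * hh V m g X S γ = ∑ β ∈ S, (if β ≠ 0 ∧ β ∣ γ then
      ev χ γ * (g γ / (nq γ : ℂ)) * ((m β * V (nq γ / (nq β * X)) : ℝ) : ℂ) else 0) := by
    intro γ
    unfold hh aa
    rw [Complex.ofReal_sum, ← mul_assoc, mul_sum, sum_filter]
  simp only [hterm]
  refine hasSum_sum fun β _ => ?_
  by_cases hβ : β = 0
  · subst hβ
    rw [hg.zero]
    simp only [ne_eq, not_true_eq_false, false_and, if_false, mul_zero, zero_div, zero_mul]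
    exact hasSum_zero
  · have hinj : Function.Injective (fun α : R => β * α) := mul_right_injective₀ hβ
    rw [← hinj.hasSum_iff (fun γ hγ => by
      rw [if_neg]
      rintro ⟨_, α, hα⟩
      exact hγ ⟨α, hα.symm⟩)]
    have h5 := one_le_nq h1 hR hβ
    have h6 := (hsm.hasSum.mul_left (ev χ β * ((m β : ℂ) * g β) / (nq β : ℂ)))
    refine h6.congr_fun fun α => ?_
    show (if β ≠ 0 ∧ β ∣ β * α then _ else (0 : ℂ)) = _
    rw [if_pos ⟨hβ, dvd_mul_right β α⟩, hev, hg.mul, nq_mul]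
    have h7 : nq β * nq α / (nq β * X) = nq α / X := by
      field_simp
    rw [h7]
    push_cast
    by_cases hα : α = 0
    · rw [hα, hg.zero]; simp
    · have h8 : (nq α : ℂ) ≠ 0 := by
        have := one_le_nq h1 hR hα
        exact_mod_cast (by linarith : nq α ≠ 0)
      have h9 : (nq β : ℂ) ≠ 0 := by exact_mod_cast (by linarith : nq β ≠ 0)
      field_simp

theorem mol_smo {V : ℝ → ℝ} {CV : ℝ} (hV : VW V CV) (h1 : C_BASIC) (h2 : C_LAT) (hR : CMRing R ω) {m : R → ℝ} {g : R → ℂ}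
    (hg : Gd R g) {B X : ℝ} (hX : 0 < X) {S : Finset R} (hS : ∀ β, β ∈ S ↔ nq β ≤ B) {κ : R}
    [Finite (Aq R κ)] (χ : MulChar (Aq R κ) ℂ) :
    Summable (fun γ : R => ev χ γ * hh V m g X S γ) ∧
    mol m g B χ * smov V g X χ = 1 / (nu R : ℂ) ^ 2 * ∑' γ : R, ev χ γ * hh V m g X S γ := by
  classical
  have h := prod_hasSum (m := m) hV h1 h2 hR hg hX S χ
  refine ⟨h.summable, ?_⟩
  rw [h.tsum_eq]
  have h5 : mol m g B χ = 1 / (nu R : ℂ) * ∑ β ∈ S, ev χ β * ((m β : ℂ) * g β) / (nq β : ℂ) := by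
    unfold mol
    congr 1
    rw [tsum_eq_sum (s := S)]
    · refine sum_congr rfl fun β hβ => ?_
      rw [if_pos ((hS β).1 hβ)]
    · intro β hβ
      rw [if_neg (fun h => hβ ((hS β).2 h))]
  rw [h5]
  unfold smov
  ring

/-- the main estimate -/
theorem pe {V : ℝ → ℝ} {CV : ℝ} (hV : VW V CV) (h1 : C_BASIC) (h2 : C_LAT) (h3 : C_DIVR) (hR : CMRing R ω) {m : R → ℝ} (hm : Mu R m)
    {g : R → ℂ} (hg : Gd R g) (η C1 C2 : ℝ) (hη0 : 0 < η) (hη1 : η < 1 / 8) (hC1pos : 0 < C1)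
    (hC1 : ∀ γ : R, γ ≠ 0 → (Set.ncard {β : R | β ∣ γ} : ℝ) ≤ C1 * (nq γ) ^ η)
    (hC2pos : 0 < C2)
    (hC2 : ∀ y : ℝ, 0 ≤ y → (Set.ncard {α : R | nq α ≤ y} : ℝ) ≤ C2 * (1 + y))
    {B X : ℝ} (hB : 1 ≤ B) (hX : 0 < X) {S : Finset R} (hS : ∀ β, β ∈ S ↔ nq β ≤ B)
    {κ : R} (H : Subgroup (Aq R κ)ˣ) (A : R → ℂ) (hA : ∀ γ, ‖A γ‖ ≤ ind H γ)
    (hAu : ∀ u : R, IsUnit u → A u = 1) :
    ‖1 / (nu R : ℂ) ^ 2 * ∑' γ : R, A γ * hh V m g X S γ - (V (1 / X) : ℂ)‖ ≤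
      CV * (2 * C1 * C2 * (B ^ 2 / X)) + CV * C1 * tailR H B (B * (2 * X)) η := by
  classical
  have hCV := hV.pos
  have hnu := one_le_nu h1 hR
  have hnu0 : (nu R : ℂ) ≠ 0 := by
    have : (nu R : ℝ) ≠ 0 := by linarith
    exact_mod_cast this
  -- splitting
  let p1 : R → ℂ := fun γ => if IsUnit γ then (nu R : ℂ) * (V (1 / X) : ℂ) else 0
  let p2 : R → ℂ := fun γ => if IsUnit γ then 0 else A γ * hh V m g X S γ
  have hp : ∀ γ, A γ * hh V m g X S γ = p1 γ + p2 γ := by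
    intro γ
    show _ = (if IsUnit γ then (nu R : ℂ) * (V (1 / X) : ℂ) else 0) +
      (if IsUnit γ then 0 else A γ * hh V m g X S γ)
    split_ifs with h
    · rw [add_zero, hAu γ h, one_mul]
      unfold hh
      rw [aa_unit V h1 h3 hR hm hB hS h, hg.unit γ h]
      have : nq γ = 1 := ((h1 R ω hR).2.1 γ).1 h
      rw [this]
      push_cast
      ring
    · rw [zero_add]
  have hs1 : HasSum p1 ((nu R : ℂ) * ((nu R : ℂ) * (V (1 / X) : ℂ))) := by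
    exact unit_sum h1 hR _
  let f1 : R → ℝ := fun γ => if nq γ ≤ B then CV * (C1 * (B / X)) else 0
  let tf : R → ℝ := fun γ => if B < Complex.normSq (γ : ℂ) ∧
      ∃ x ∈ H, ((x : (Aq R κ)ˣ) : Aq R κ) = Ideal.Quotient.mk (Ideal.span {κ}) γ
    then (Complex.normSq (γ : ℂ)) ^ (-1 / 2 + η) * Real.exp (-(Complex.normSq (γ : ℂ) / (B * (2 * X))))
    else 0
  have htf0 : ∀ γ, 0 ≤ tf γ := by
    intro γ
    show 0 ≤ ite _ _ _
    split_ifs
    · exact mul_nonneg (Real.rpow_nonneg (Complex.normSq_nonneg _) _) (Real.exp_pos _).le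
    · exact le_rfl
  have hf10 : ∀ γ, 0 ≤ f1 γ := by
    intro γ
    show 0 ≤ ite _ _ _
    split_ifs
    · positivity
    · exact le_rfl
  have hstf : Summable tf := by
    refine Summable.of_nonneg_of_le htf0 (fun γ => ?_) (summ_exp h1 h2 hR (show 0 < B * (2 * X) by positivity))
    show ite _ _ _ ≤ _
    split_ifs with h
    · have h5 : (1 : ℝ) ≤ Complex.normSq (γ : ℂ) := hB.trans h.1.le
      have h6 : (Complex.normSq (γ : ℂ)) ^ (-1 / 2 + η) ≤ 1 :=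
        Real.rpow_le_one_of_one_le_of_nonpos h5 (by linarith)
      exact mul_le_of_le_one_left (Real.exp_pos _).le h6
    · exact (Real.exp_pos _).le
  have hsf1 : HasSum f1 (∑ γ ∈ S, f1 γ) := by
    refine hasSum_sum_of_ne_finset_zero fun γ hγ => ?_
    show ite _ _ _ = _
    rw [if_neg (fun h => hγ ((hS γ).2 h))]
  have hsum1 : ∑ γ ∈ S, f1 γ ≤ CV * (2 * C1 * C2 * (B ^ 2 / X)) := by
    have h5 : ∑ γ ∈ S, f1 γ ≤ S.card • (CV * (C1 * (B / X))) := by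
      refine sum_le_card_nsmul _ _ _ fun γ hγ => ?_
      show ite _ _ _ ≤ _
      rw [if_pos ((hS γ).1 hγ)]
    have h6 : (S.card : ℝ) ≤ C2 * (1 + B) := by
      have h7 := hC2 B (by linarith)
      have h8 : {α : R | nq α ≤ B} = (S : Set R) := by
        ext α
        rw [mem_coe, hS]
        rfl
      rw [h8, Set.ncard_coe_finset] at h7
      exact h7
    rw [nsmul_eq_mul] at h5
    calc ∑ γ ∈ S, f1 γ ≤ S.card * (CV * (C1 * (B / X))) := h5
      _ ≤ (C2 * (1 + B)) * (CV * (C1 * (B / X))) := mul_le_mul_of_nonneg_right h6 (by positivity)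
      _ ≤ (C2 * (2 * B)) * (CV * (C1 * (B / X))) := by
          apply mul_le_mul_of_nonneg_right _ (by positivity)
          apply mul_le_mul_of_nonneg_left _ hC2pos.le
          linarith
      _ = _ := by ring
  have hbd : ∀ γ, ‖p2 γ‖ ≤ f1 γ + CV * C1 * tf γ := by
    intro γ
    have hnn : 0 ≤ f1 γ + CV * C1 * tf γ :=
      add_nonneg (hf10 γ) (mul_nonneg (mul_nonneg hCV.le hC1pos.le) (htf0 γ))
    by_cases hu : IsUnit γ
    · show ‖ite _ _ _‖ ≤ _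
      rw [if_pos hu, norm_zero]
      exact hnn
    by_cases hγ : γ = 0
    · have : p2 γ = 0 := by
        show ite _ _ _ = _
        rw [if_neg hu]
        unfold hh
        rw [hγ, hg.zero]
        simp
      rw [this, norm_zero]
      exact hnn
    have hp2 : p2 γ = A γ * hh V m g X S γ := if_neg hu
    rw [hp2, norm_mul]
    have hfin := ((h3 R ω hR 1 one_pos).choose_spec.2 γ hγ).1
    have h5 := one_le_nq h1 hR hγ
    have h5' : 0 < nq γ := by linarith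
    have h6 : ‖g γ / (nq γ : ℂ)‖ ≤ (nq γ) ^ (-1 / 2 : ℝ) := by
      rw [norm_div, Complex.norm_real, Real.norm_of_nonneg (nq_nonneg _), div_le_iff₀ h5']
      refine (hg.le γ).trans ?_
      rw [norm_coe]
      conv_rhs => rw [← Real.rpow_one (nq γ)]
      rw [Real.rpow_one, ← Real.rpow_add_one h5'.ne']
      norm_num
    have h7 : ‖hh V m g X S γ‖ ≤ (nq γ) ^ (-1 / 2 : ℝ) * |aa V m X S γ| := by
      unfold hh
      rw [norm_mul, Complex.norm_real, Real.norm_eq_abs]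
      exact mul_le_mul_of_nonneg_right h6 (abs_nonneg _)
    have hpos : 0 ≤ (nq γ) ^ (-1 / 2 : ℝ) := Real.rpow_nonneg (nq_nonneg _) _
    by_cases hγB : nq γ ≤ B
    · have h8 := aa_small hV h1 hR hm hX hS hγ hu hγB hfin
      have h9 := hC1 γ hγ
      have h10 : ‖hh V m g X S γ‖ ≤ CV * (C1 * (B / X)) := by
        refine h7.trans ?_
        calc (nq γ) ^ (-1 / 2 : ℝ) * |aa V m X S γ| ≤
              (nq γ) ^ (-1 / 2 : ℝ) * ((C1 * (nq γ) ^ η) * (CV * (nq γ / X))) := by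
              apply mul_le_mul_of_nonneg_left _ hpos
              refine h8.trans (mul_le_mul_of_nonneg_right h9 ?_)
              exact mul_nonneg hCV.le (div_nonneg (nq_nonneg _) hX.le)
          _ = CV * (C1 * ((nq γ) ^ (-1 / 2 : ℝ) * (nq γ) ^ η * nq γ / X)) := by ring
          _ = CV * (C1 * ((nq γ) ^ (-1 / 2 + η + 1 : ℝ) / X)) := by
              rw [Real.rpow_add h5', Real.rpow_add h5', Real.rpow_one]
          _ ≤ CV * (C1 * (nq γ / X)) := by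
              apply mul_le_mul_of_nonneg_left _ hCV.le
              apply mul_le_mul_of_nonneg_left _ hC1pos.le
              apply div_le_div_of_nonneg_right _ hX.le
              conv_rhs => rw [← Real.rpow_one (nq γ)]
              exact Real.rpow_le_rpow_of_exponent_le h5 (by linarith)
          _ ≤ CV * (C1 * (B / X)) := by
              apply mul_le_mul_of_nonneg_left _ hCV.le
              apply mul_le_mul_of_nonneg_left _ hC1pos.le
              exact div_le_div_of_nonneg_right hγB hX.le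
      have h11 : ‖A γ‖ ≤ 1 := (hA γ).trans (ind_le _ _)
      have h12 : f1 γ = CV * (C1 * (B / X)) := if_pos hγB
      have h13 : 0 ≤ CV * C1 * tf γ := mul_nonneg (mul_nonneg hCV.le hC1pos.le) (htf0 γ)
      calc ‖A γ‖ * ‖hh V m g X S γ‖ ≤ 1 * (CV * (C1 * (B / X))) :=
            mul_le_mul h11 h10 (norm_nonneg _) zero_le_one
        _ ≤ _ := by rw [h12]; linarith
    · by_cases hH : ∃ x ∈ H, ((x : (Aq R κ)ˣ) : Aq R κ) = Ideal.Quotient.mk (Ideal.span {κ}) γ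
      · have h8 := aa_large hV h1 hR hm hX hS hγ hfin
        have h9 := hC1 γ hγ
        have h10 : ‖hh V m g X S γ‖ ≤ CV * C1 * tf γ := by
          refine h7.trans ?_
          have h11 : tf γ = (nq γ) ^ (-1 / 2 + η) * Real.exp (-(nq γ / (B * (2 * X)))) :=
            if_pos ⟨not_le.1 hγB, hH⟩
          rw [h11]
          calc (nq γ) ^ (-1 / 2 : ℝ) * |aa V m X S γ| ≤
                (nq γ) ^ (-1 / 2 : ℝ) *
                  ((C1 * (nq γ) ^ η) * (CV * Real.exp (-(nq γ / (B * (2 * X)))))) := by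
                apply mul_le_mul_of_nonneg_left _ hpos
                refine h8.trans (mul_le_mul_of_nonneg_right h9 ?_)
                exact mul_nonneg hCV.le (Real.exp_pos _).le
            _ = CV * C1 * (((nq γ) ^ (-1 / 2 : ℝ) * (nq γ) ^ η) *
                  Real.exp (-(nq γ / (B * (2 * X))))) := by ring
            _ = _ := by rw [Real.rpow_add h5']
        have h11 : ‖A γ‖ ≤ 1 := (hA γ).trans (ind_le _ _)
        calc ‖A γ‖ * ‖hh V m g X S γ‖ ≤ 1 * (CV * C1 * tf γ) :=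
              mul_le_mul h11 h10 (norm_nonneg _) zero_le_one
          _ ≤ _ := by have := hf10 γ; linarith
      · have h8 : ind H γ = 0 := if_neg hH
        have h9 : ‖A γ‖ = 0 := le_antisymm ((hA γ).trans h8.le) (norm_nonneg _)
        rw [h9, zero_mul]
        exact hnn
  have hsb : HasSum (fun γ => f1 γ + CV * C1 * tf γ) (∑ γ ∈ S, f1 γ + CV * C1 * ∑' γ, tf γ) :=
    hsf1.add (hstf.hasSum.mul_left (CV * C1))
  have hsp2 : Summable p2 := Summable.of_norm_bounded hsb.summable hbd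
  have hn2 : ‖∑' γ, p2 γ‖ ≤ ∑ γ ∈ S, f1 γ + CV * C1 * ∑' γ, tf γ := tsum_of_norm_bounded hsb hbd
  have htsum : ∑' γ : R, A γ * hh V m g X S γ =
      (nu R : ℂ) * ((nu R : ℂ) * (V (1 / X) : ℂ)) + ∑' γ, p2 γ := by
    rw [tsum_congr hp, hs1.summable.tsum_add hsp2, hs1.tsum_eq]
  rw [htsum]
  have e : 1 / (nu R : ℂ) ^ 2 * ((nu R : ℂ) * ((nu R : ℂ) * (V (1 / X) : ℂ)) +
      ∑' γ, p2 γ) - (V (1 / X) : ℂ) = 1 / (nu R : ℂ) ^ 2 * ∑' γ, p2 γ := by
    field_simp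
    ring
  rw [e, norm_mul, norm_div, norm_pow, norm_one, Complex.norm_natCast]
  have h5 : 1 / (nu R : ℝ) ^ 2 ≤ 1 := by
    rw [div_le_one (by positivity)]
    exact one_le_pow₀ hnu
  have h6 : ‖∑' γ, p2 γ‖ ≤ CV * (2 * C1 * C2 * (B ^ 2 / X)) +
      CV * C1 * tailR H B (B * (2 * X)) η := by
    refine hn2.trans (add_le_add hsum1 (le_of_eq ?_))
    rfl
  calc 1 / (nu R : ℝ) ^ 2 * ‖∑' γ, p2 γ‖ ≤ 1 * ‖∑' γ, p2 γ‖ :=
        mul_le_mul_of_nonneg_right h5 (norm_nonneg _)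
    _ ≤ _ := by rw [one_mul]; exact h6

/-- the double sum for one `r` -/
theorem one_r {V : ℝ → ℝ} {CV : ℝ} (hV : VW V CV) (h1 : C_BASIC) (h2 : C_LAT) (h4 : C_ORTH) (hR : CMRing R ω) {m : R → ℝ} {g : R → ℂ}
    (hg : Gd R g) {B X : ℝ} (hX : 0 < X) {S : Finset R} (hS : ∀ β, β ∈ S ↔ nq β ≤ B) {κ : R}
    [Finite (Aq R κ)] (χ₀ : MulChar (Aq R κ) ℂ) (t e : ℕ) (hed : e ∣ orderOf χ₀) :
    ∑ ψ ∈ Cf χ₀ e, mol m g B (χ₀ ^ t * ψ) * smov V g X (χ₀ ^ t * ψ) =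
      (e : ℂ) * (1 / (nu R : ℂ) ^ 2 * ∑' γ : R, AAw χ₀ t e γ * hh V m g X S γ) := by
  classical
  have e1 : (e : ℂ) * (1 / (nu R : ℂ) ^ 2 * ∑' γ : R, AAw χ₀ t e γ * hh V m g X S γ) =
      1 / (nu R : ℂ) ^ 2 * ∑' γ : R, (e : ℂ) * (AAw χ₀ t e γ * hh V m g X S γ) := by
    rw [tsum_mul_left]; ring
  rw [e1, sum_congr rfl (fun ψ _ => (mol_smo hV h1 h2 hR hg hX hS (χ₀ ^ t * ψ)).2), ← mul_sum,
    ← Summable.tsum_finsetSum (fun ψ _ => (mol_smo hV h1 h2 hR hg hX hS (χ₀ ^ t * ψ)).1)]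
  congr 1
  refine tsum_congr fun γ => ?_
  rw [← sum_mul, sum_cf h4 χ₀ t e hed]
  ring

end main

theorem d_mainp (h0 : Pool.Agent.W192.CY.S_DIV) (h1 : C_BASIC) (h2 : C_LAT) (h3 : C_DIVR)
    (h4 : C_ORTH) (h5 : C_MOB) (h6 : C_TAIL) : D_MAINP := by
  classical
  intro V CV hV R ω hR m g hm hg ε hε hε4
  have hCV := hV.pos
  obtain ⟨η, δ0, C0, hη, hη8, hδ0, hC0, htail⟩ := h6 R ω hR ε hε hε4
  obtain ⟨C1, hC1pos, hdiv⟩ := h3 R ω hR η hη
  obtain ⟨C2, hC2pos, hlat⟩ := lat h2 hR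
  obtain ⟨ρ, hρ, hρ1, hρ2⟩ : ∃ ρ : ℝ, 0 < ρ ∧ 2 * ρ ≤ δ0 ∧ 2 * ρ ≤ 1 / 2 := by
    refine ⟨min δ0 (1 / 2) / 2, by positivity, ?_, ?_⟩
    · linarith [min_le_left δ0 (1 / 2)]
    · linarith [min_le_right δ0 (1 / 2)]
  obtain ⟨Cb, hCb, hdivb, _⟩ := h0 ρ hρ
  refine ⟨ρ, Cb * (CV * (4 * C1 * C2) + CV * C1 * C0) + 2 * CV, 1, hρ, by positivity, ?_⟩
  intro κ _ hκ hN1 χ₀ hχ₀ hdq M hM1 hMd
  obtain ⟨N, hN⟩ : ∃ N : ℝ, N = Complex.normSq (κ : ℂ) := ⟨_, rfl⟩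
  rw [← hN] at hN1 hdq ⊢
  have hNpos : 0 < N := by linarith
  obtain ⟨t, hcardM, hmob⟩ := h5 (Aq R κ) χ₀ M hM1 hMd
  obtain ⟨d, hddef⟩ : ∃ d : ℕ, d = orderOf χ₀ := ⟨_, rfl⟩
  obtain ⟨X, hXdef⟩ : ∃ X : ℝ, X = N ^ (2 / 3 : ℝ) / 2 := ⟨_, rfl⟩
  have hX2 : 2 * X = N ^ (2 / 3 : ℝ) := by rw [hXdef]; ring
  have hX : 0 < X := by rw [hXdef]; positivity
  obtain ⟨B, hBdef⟩ : ∃ B : ℝ, B = N ^ (ε / 2) := ⟨_, rfl⟩
  have hB : 1 ≤ B := by rw [hBdef]; exact Real.one_le_rpow hN1 (by positivity)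
  obtain ⟨S, hS⟩ : ∃ S : Finset R, ∀ β, β ∈ S ↔ nq β ≤ B := by
    refine ⟨(hlat B (by linarith)).1.toFinset, fun β => ?_⟩
    rw [Set.Finite.mem_toFinset]
    rfl
  have hNcard : (Nat.card (Aq R κ) : ℝ) = N := by
    rw [hN]; exact ((h1 R ω hR).2.2.2.2 κ hκ).2
  have hcard : ∀ e : ℕ, e ∣ orderOf χ₀ → ((e : ℝ) * Nat.card (Hf χ₀ e)) ≤ N := fun e he => by
    have g1 := (h4 (Aq R κ) χ₀ e he).1
    have g2 : Nat.card (Aq R κ)ˣ ≤ Nat.card (Aq R κ) :=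
      Nat.card_le_card_of_injective Units.val Units.val_injective
    rw [← g1] at g2
    rw [← hNcard]
    exact_mod_cast g2
  have hordpos : 0 < orderOf χ₀ := by
    rw [orderOf_pos_iff, isOfFinOrder_iff_pow_eq_one]
    refine ⟨Nat.card (Aq R κ)ˣ, Nat.card_pos, ?_⟩
    refine MulChar.ext fun u => ?_
    rw [MulChar.pow_apply_coe, ← map_pow, ← Units.val_pow_eq_pow_val, pow_card_eq_one',
      Units.val_one, map_one, MulChar.one_apply_coe]
  have hdpos : 0 < d := by rw [hddef]; exact hordpos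
  have hdR : (0 : ℝ) < d := by exact_mod_cast hdpos
  have hdle : (d : ℝ) ≤ N := by
    have g1 := hcard (orderOf χ₀) dvd_rfl
    have g2 : 0 < Nat.card (Hf χ₀ (orderOf χ₀)) := Nat.card_pos
    have g3 : (1 : ℝ) ≤ Nat.card (Hf χ₀ (orderOf χ₀)) := by exact_mod_cast g2
    rw [← hddef] at g1 g3
    exact (le_mul_of_one_le_right hdR.le g3).trans g1
  -- the divisors
  obtain ⟨RR, hRdef⟩ : ∃ RR : Finset ℕ, RR = (orderOf χ₀).divisors.filter
    (fun r => Nat.Coprime r M) := ⟨_, rfl⟩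
  have hRd : ∀ r ∈ RR, (orderOf χ₀ / (r * M)) ∣ orderOf χ₀ := by
    intro r hr
    rw [hRdef, mem_filter, Nat.mem_divisors] at hr
    exact Nat.div_dvd_of_dvd (Nat.Coprime.mul_dvd_of_dvd_of_dvd hr.2 hr.1.1 hMd)
  have hRcard : RR.card ≤ (orderOf χ₀).divisors.card := by
    rw [hRdef]
    exact card_filter_le _ _
  have hEm : ((Ef χ₀ M).card : ℂ) = ∑ r ∈ RR, ((ArithmeticFunction.moebius r : ℤ) : ℂ) *
      ((orderOf χ₀ / (r * M) : ℕ) : ℂ) := by
    have g1 := hmob (fun _ => 1)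
    rw [← hRdef] at g1
    simp only [sum_const, nsmul_eq_mul, mul_one] at g1
    rw [g1]
    refine sum_congr rfl fun r hr => ?_
    congr 1
    have g2 := ((h4 (Aq R κ) χ₀ _ (hRd r hr)).2 1).1 (one_mem _)
    simpa using g2
  have hEmle : ((Ef χ₀ M).card : ℝ) ≤ d := by
    have g1 : 0 < Nat.totient M := Nat.totient_pos.2 hM1
    have g2 : (Ef χ₀ M).card ≤ (Ef χ₀ M).card * Nat.totient M := Nat.le_mul_of_pos_right _ g1
    have g3 := Nat.totient_le (orderOf χ₀)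
    rw [hcardM] at g2
    rw [← hddef] at g2 g3
    exact_mod_cast g2.trans g3
  obtain ⟨P, hP⟩ : ∃ P : ℕ → ℂ, ∀ r, P r = 1 / (nu R : ℂ) ^ 2 *
      ∑' γ : R, AAw χ₀ (t r) (orderOf χ₀ / (r * M)) γ * hh V m g X S γ := ⟨_, fun _ => rfl⟩
  have hsum : ∑ χ ∈ Ef χ₀ M, mol m g B χ * smov V g X χ =
      ∑ r ∈ RR, ((ArithmeticFunction.moebius r : ℤ) : ℂ) *
        (((orderOf χ₀ / (r * M) : ℕ) : ℂ) * P r) := by
    rw [hmob (fun χ => mol m g B χ * smov V g X χ), ← hRdef]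
    refine sum_congr rfl fun r hr => ?_
    rw [one_r hV h1 h2 h4 hR hg hX hS χ₀ (t r) _ (hRd r hr), hP]
  rw [← hXdef, ← hBdef, hsum, hEm]
  have hT : ∀ r ∈ RR, ((orderOf χ₀ / (r * M) : ℕ) : ℝ) * ‖P r - (V (1 / X) : ℂ)‖ ≤
      CV * (2 * C1 * C2 * (d * (B ^ 2 / X))) + CV * C1 * (C0 * d * N ^ (-δ0)) := by
    intro r hr
    obtain ⟨e, he⟩ : ∃ e : ℕ, e = orderOf χ₀ / (r * M) := ⟨_, rfl⟩
    have hed := hRd r hr
    rw [hP, ← he]
    rw [← he] at hed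
    have hele : (e : ℝ) ≤ d := by
      rw [hddef]
      exact_mod_cast Nat.le_of_dvd hordpos hed
    have b1 := pe hV h1 h2 h3 hR hm hg η C1 C2 hη hη8 hC1pos (fun γ hγ => (hdiv γ hγ).2) hC2pos
      (fun y hy => (hlat y hy).2) hB hX hS (Hf χ₀ e) (AAw χ₀ (t r) e) (AAw_norm χ₀ (t r) e)
      (AAw_unit χ₀ hχ₀ (t r) e)
    have b2 := htail κ hκ d e (hddef ▸ hed) (hN ▸ hdle) (by rw [← hN, hddef]; exact hdq)
      (Hf χ₀ e) (by rw [← hN]; exact hcard e hed)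
    rw [← hN] at b2
    have b3 : B * (2 * X) = N ^ (2 / 3 + ε / 2) := by
      rw [hBdef, hX2, ← Real.rpow_add hNpos]
      congr 1
      ring
    rw [b3] at b1
    rw [← hBdef] at b2
    calc (e : ℝ) * ‖1 / (nu R : ℂ) ^ 2 * ∑' γ : R, AAw χ₀ (t r) e γ * hh V m g X S γ -
          (V (1 / X) : ℂ)‖ ≤
          e * (CV * (2 * C1 * C2 * (B ^ 2 / X)) +
            CV * C1 * tailR (Hf χ₀ e) B (N ^ (2 / 3 + ε / 2)) η) := by
          gcongr
      _ = CV * (2 * C1 * C2 * (e * (B ^ 2 / X))) +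
            CV * C1 * (e * tailR (Hf χ₀ e) B (N ^ (2 / 3 + ε / 2)) η) := by ring
      _ ≤ CV * (2 * C1 * C2 * (d * (B ^ 2 / X))) + CV * C1 * (C0 * d * N ^ (-δ0)) := by gcongr
  have hsplit : ∑ r ∈ RR, ((ArithmeticFunction.moebius r : ℤ) : ℂ) *
        (((orderOf χ₀ / (r * M) : ℕ) : ℂ) * P r) -
      ∑ r ∈ RR, ((ArithmeticFunction.moebius r : ℤ) : ℂ) * ((orderOf χ₀ / (r * M) : ℕ) : ℂ) =
      ∑ r ∈ RR, ((ArithmeticFunction.moebius r : ℤ) : ℂ) *
        (((orderOf χ₀ / (r * M) : ℕ) : ℂ) * (P r - (V (1 / X) : ℂ))) +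
      ((V (1 / X) : ℂ) - 1) * ((Ef χ₀ M).card : ℂ) := by
    rw [hEm, mul_sum, ← sum_add_distrib, ← sum_sub_distrib]
    refine sum_congr rfl (fun e _ => ?_)
    ring
  rw [hsplit]
  have hE1 : ‖(V (1 / X) : ℂ) - 1‖ ≤ CV * (1 / X) := by
    have g2 : (V (1 / X) : ℂ) - 1 = ((V (1 / X) - 1 : ℝ) : ℂ) := by push_cast; rfl
    rw [g2, Complex.norm_real, Real.norm_eq_abs, abs_sub_comm]
    exact hV.one _ (by positivity)
  have hτ : (RR.card : ℝ) ≤ Cb * N ^ ρ := by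
    have g0 : (RR.card : ℝ) ≤ (d.divisors.card : ℝ) := by
      rw [hddef]
      exact_mod_cast hRcard
    refine g0.trans ((hdivb d hdpos).trans ?_)
    gcongr
  have hmain : ‖∑ r ∈ RR, ((ArithmeticFunction.moebius r : ℤ) : ℂ) *
        (((orderOf χ₀ / (r * M) : ℕ) : ℂ) * (P r - (V (1 / X) : ℂ)))‖ ≤
      RR.card * (CV * (2 * C1 * C2 * (d * (B ^ 2 / X))) + CV * C1 * (C0 * d * N ^ (-δ0))) := by
    refine (norm_sum_le _ _).trans ?_
    rw [← nsmul_eq_mul]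
    refine sum_le_card_nsmul _ _ _ fun r hr => ?_
    rw [norm_mul, norm_mul, Complex.norm_natCast, Complex.norm_intCast]
    have g1 : |((ArithmeticFunction.moebius r : ℤ) : ℝ)| ≤ 1 := by
      have := ArithmeticFunction.abs_moebius_le_one (n := r)
      exact_mod_cast this
    refine (mul_le_of_le_one_left ?_ g1).trans (hT r hr)
    positivity
  -- numerical estimates
  have hn1 : B ^ 2 / X ≤ 2 * N ^ (-(2 * ρ)) := by
    have hn0 : B ^ 2 / X = 2 * (B ^ 2 / N ^ (2 / 3 : ℝ)) := by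
      rw [hXdef]
      field_simp
    rw [hn0, hBdef, ← Real.rpow_natCast, ← Real.rpow_mul hNpos.le, ← Real.rpow_sub hNpos]
    apply mul_le_mul_of_nonneg_left _ (by norm_num)
    apply Real.rpow_le_rpow_of_exponent_le hN1
    push_cast
    linarith
  have hn2 : N ^ (-δ0) ≤ N ^ (-(2 * ρ)) :=
    Real.rpow_le_rpow_of_exponent_le hN1 (by linarith)
  have hn3 : 1 / X ≤ 2 * N ^ (-ρ) := by
    have hn0 : 1 / X = 2 * (N ^ (2 / 3 : ℝ))⁻¹ := by
      rw [hXdef]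
      field_simp
    rw [hn0, ← Real.rpow_neg hNpos.le]
    apply mul_le_mul_of_nonneg_left _ (by norm_num)
    exact Real.rpow_le_rpow_of_exponent_le hN1 (by linarith)
  have hn4 : N ^ ρ * N ^ (-(2 * ρ)) = N ^ (-ρ) := by
    rw [← Real.rpow_add hNpos]
    congr 1
    ring
  have hQ : 0 < N ^ (-ρ) := by positivity
  rw [← hddef]
  rw [← hddef] at hmain
  calc _ ≤ RR.card * (CV * (2 * C1 * C2 * (d * (B ^ 2 / X))) + CV * C1 * (C0 * d * N ^ (-δ0))) +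
        CV * (1 / X) * ((Ef χ₀ M).card : ℝ) := by
        refine (norm_add_le _ _).trans (add_le_add hmain ?_)
        rw [norm_mul, Complex.norm_natCast]
        gcongr
    _ ≤ (Cb * N ^ ρ) * (CV * (2 * C1 * C2 * (d * (2 * N ^ (-(2 * ρ))))) +
          CV * C1 * (C0 * d * N ^ (-(2 * ρ)))) + CV * (2 * N ^ (-ρ)) * d := by gcongr
    _ = Cb * (CV * (4 * C1 * C2) + CV * C1 * C0) * d * (N ^ ρ * N ^ (-(2 * ρ))) +
          2 * CV * N ^ (-ρ) * d := by ring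
    _ = (Cb * (CV * (4 * C1 * C2) + CV * C1 * C0) + 2 * CV) * d * N ^ (-ρ) := by rw [hn4]; ring

end Pool.Agent.W856.CM.Mainp
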